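import Pool.Agent.W_0d5018_h9.Enum
import Pool.Agent.W_0d5018_h9.TwoThirds

/-!
# The homogeneous and the inhomogeneous lacunary avoidance constants
-/

namespace Pool.Agent.Results.MP_0d5018_nt.InhomogeneousEqual

/-- The distance from `x` to the nearest integer. -/
noncomputable def nearest (x : ℝ) : ℝ := |x - round x|

/-- `t` is an `M`-lacunary sequence of positive reals. -/
def IsLacunary (M : ℝ) (t : ℕ → ℝ) : Prop :=
  (∀ j, 0 < t j) ∧ ∀ j, 1 + 1 / M ≤ t (j + 1) / t j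

/-- The supremum over real `α` of the infimum over `j` of the distance from `α t_j - η_j` to the
nearest integer. -/
noncomputable def delta (t η : ℕ → ℝ) : ℝ := ⨆ α : ℝ, ⨅ j : ℕ, nearest (α * t j - η j)

/-- The same for the first `n + 1` terms only. -/
noncomputable def deltaFin (n : ℕ) (t η : ℕ → ℝ) : ℝ :=
  ⨆ α : ℝ, ⨅ j : Fin (n + 1), nearest (α * t j - η j)

/-- The constant of the problem: infinite sequences of positive reals, no shifts. -/
noncomputable def F (M : ℝ) : ℝ := sInf {d | ∃ t : ℕ → ℝ, IsLacunary M t ∧ d = delta t 0}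

/-- Finite sequences of positive reals, arbitrary shifts. -/
noncomputable def FinShift (M : ℝ) : ℝ :=
  sInf {d | ∃ (n : ℕ) (t η : ℕ → ℝ), IsLacunary M t ∧ d = deltaFin n t η}

/-- Finite sequences of positive reals, no shifts. -/
noncomputable def FinZero (M : ℝ) : ℝ :=
  sInf {d | ∃ (n : ℕ) (t : ℕ → ℝ), IsLacunary M t ∧ d = deltaFin n t 0}

/-- Infinite sequences of positive integers, arbitrary shifts. -/
noncomputable def IntShift (M : ℝ) : ℝ :=
  sInf {d | ∃ (t : ℕ → ℕ) (η : ℕ → ℝ), IsLacunary M (fun j => t j) ∧ d = delta (fun j => t j) η}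

/-- Infinite sequences of positive integers, no shifts. -/
noncomputable def IntZero (M : ℝ) : ℝ :=
  sInf {d | ∃ t : ℕ → ℕ, IsLacunary M (fun j => t j) ∧ d = delta (fun j => t j) 0}

open Pool.Agent.W_0d5018_h9 (Kills)

theorem nearest_nonneg (x : ℝ) : 0 ≤ nearest x := abs_nonneg _

theorem bddBelow (n : Type) (t η : n → ℝ) (α : ℝ) :
    BddBelow (Set.range fun j : n => nearest (α * t j - η j)) :=
  ⟨0, by rintro y ⟨j, rfl⟩; exact nearest_nonneg _⟩

theorem bddAbove (n : Type) (j₀ : n) (t η : n → ℝ) :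
    BddAbove (Set.range fun α : ℝ => ⨅ j : n, nearest (α * t j - η j)) := by
  refine ⟨1 / 2, ?_⟩
  rintro x ⟨β, rfl⟩
  exact (ciInf_le (bddBelow n t η β) j₀).trans (abs_sub_round _)

theorem delta_nonneg (t η : ℕ → ℝ) : 0 ≤ delta t η := by
  have h1 : (0 : ℝ) ≤ ⨅ j : ℕ, nearest (0 * t j - η j) := le_ciInf fun j => nearest_nonneg _
  exact h1.trans (le_ciSup (bddAbove ℕ 0 t η) 0)

theorem deltaFin_nonneg (n : ℕ) (t η : ℕ → ℝ) : 0 ≤ deltaFin n t η := by
  have h1 : (0 : ℝ) ≤ ⨅ j : Fin (n + 1), nearest (0 * t j - η j) :=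
    le_ciInf fun j => nearest_nonneg _
  exact h1.trans (le_ciSup (bddAbove (Fin (n + 1)) 0 (fun j => t j) fun j => η j) 0)

theorem kills_of_deltaFin (n : ℕ) (t η : ℕ → ℝ) : Kills n t η (deltaFin n t η) := by
  intro α
  obtain ⟨j, hj⟩ := exists_eq_ciInf_of_finite (f := fun j : Fin (n + 1) => nearest (α * t j - η j))
  refine ⟨j, by omega, ?_⟩
  have h1 : (⨅ j : Fin (n + 1), nearest (α * t j - η j)) ≤ deltaFin n t η :=
    le_ciSup (bddAbove (Fin (n + 1)) 0 (fun j => t j) fun j => η j) α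
  rw [← hj] at h1
  exact h1

theorem deltaFin_le {n : ℕ} {t η : ℕ → ℝ} {δ : ℝ} (h : Kills n t η δ) : deltaFin n t η ≤ δ := by
  refine ciSup_le fun α => ?_
  obtain ⟨j, hj, hj2⟩ := h α
  exact (ciInf_le (bddBelow (Fin (n + 1)) (fun j => t j) (fun j => η j) α) ⟨j, by omega⟩).trans hj2

theorem delta_le {n : ℕ} {t η : ℕ → ℝ} {δ : ℝ} (h : Kills n t η δ) : delta t η ≤ δ := by
  refine ciSup_le fun α => ?_
  obtain ⟨j, hj, hj2⟩ := h α
  exact (ciInf_le (bddBelow ℕ t η α) j).trans hj2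

theorem bdd_F (M : ℝ) : BddBelow {d | ∃ t : ℕ → ℝ, IsLacunary M t ∧ d = delta t 0} :=
  ⟨0, by rintro d ⟨t, -, rfl⟩; exact delta_nonneg _ _⟩

theorem bdd_FinShift (M : ℝ) :
    BddBelow {d | ∃ (n : ℕ) (t η : ℕ → ℝ), IsLacunary M t ∧ d = deltaFin n t η} :=
  ⟨0, by rintro d ⟨n, t, η, -, rfl⟩; exact deltaFin_nonneg _ _ _⟩

theorem bdd_FinZero (M : ℝ) :
    BddBelow {d | ∃ (n : ℕ) (t : ℕ → ℝ), IsLacunary M t ∧ d = deltaFin n t 0} :=
  ⟨0, by rintro d ⟨n, t, -, rfl⟩; exact deltaFin_nonneg _ _ _⟩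

theorem bdd_IntShift (M : ℝ) :
    BddBelow {d | ∃ (t : ℕ → ℕ) (η : ℕ → ℝ),
      IsLacunary M (fun j => t j) ∧ d = delta (fun j => t j) η} :=
  ⟨0, by rintro d ⟨t, η, -, rfl⟩; exact delta_nonneg _ _⟩

theorem bdd_IntZero (M : ℝ) :
    BddBelow {d | ∃ t : ℕ → ℕ, IsLacunary M (fun j => t j) ∧ d = delta (fun j => t j) 0} :=
  ⟨0, by rintro d ⟨t, -, rfl⟩; exact delta_nonneg _ _⟩

theorem pow_lacunary {M : ℝ} (hM : 0 < M) : IsLacunary M fun j => (1 + 1 / M) ^ j := by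
  refine ⟨fun j => by positivity, fun j => ?_⟩
  have h5 : (0 : ℝ) < (1 + 1 / M) ^ j := by positivity
  change 1 + 1 / M ≤ (1 + 1 / M) ^ (j + 1) / (1 + 1 / M) ^ j
  rw [pow_succ, mul_div_cancel_left₀ _ h5.ne']

theorem exists_nat_lacunary {M : ℝ} (hM : 0 < M) :
    ∃ t : ℕ → ℕ, IsLacunary M fun j => (t j : ℝ) := by
  refine ⟨fun j => (⌈1 + 1 / M⌉₊) ^ j, ?_, ?_⟩
  · intro j
    have : 0 < ⌈1 + 1 / M⌉₊ := Nat.ceil_pos.2 (by positivity)
    positivity
  · intro j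
    have h1 : (0 : ℝ) < (⌈1 + 1 / M⌉₊ : ℕ) := by
      have : 0 < ⌈1 + 1 / M⌉₊ := Nat.ceil_pos.2 (by positivity)
      exact_mod_cast this
    push_cast
    rw [pow_succ, mul_div_cancel_left₀ _ (by positivity)]
    exact Nat.le_ceil _

/-- The core: everything is at most the constant of finite shifted sequences. -/
theorem core {M : ℝ} (hM : 0 < M) {e : ℝ} (he : 0 < e) :
    ∃ (N : ℕ) (t : ℕ → ℕ), IsLacunary M (fun j => (t j : ℝ)) ∧
      Kills N (fun j => (t j : ℝ)) 0 (FinShift M + e) := by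
  have hne : {d | ∃ (n : ℕ) (t η : ℕ → ℝ), IsLacunary M t ∧ d = deltaFin n t η}.Nonempty :=
    ⟨_, 0, _, 0, pow_lacunary hM, rfl⟩
  obtain ⟨d, ⟨n, x, η, hx, rfl⟩, hd⟩ := exists_lt_of_csInf_lt hne
    (show sInf {d | ∃ (n : ℕ) (t η : ℕ → ℝ), IsLacunary M t ∧ d = deltaFin n t η}
      < FinShift M + e / 2 by rw [FinShift]; linarith)
  obtain ⟨N, t, ht1, ht2⟩ := Pool.Agent.W_0d5018_h9.exists_int hM hx (kills_of_deltaFin n x η)
    (show (0 : ℝ) < e / 2 by linarith)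
  refine ⟨N, t, ht1, fun α => ?_⟩
  obtain ⟨j, hj, hj2⟩ := ht2 α
  exact ⟨j, hj, hj2.trans (by linarith)⟩

theorem F_le {M : ℝ} (hM : 0 < M) : F M ≤ FinShift M := by
  refine le_of_forall_pos_le_add fun e he => ?_
  obtain ⟨N, t, ht, hk⟩ := core hM he
  exact (csInf_le (bdd_F M) ⟨_, ht, rfl⟩).trans (delta_le hk)

theorem FinZero_le {M : ℝ} (hM : 0 < M) : FinZero M ≤ FinShift M := by
  refine le_of_forall_pos_le_add fun e he => ?_
  obtain ⟨N, t, ht, hk⟩ := core hM he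
  exact (csInf_le (bdd_FinZero M) ⟨N, _, ht, rfl⟩).trans (deltaFin_le hk)

theorem IntZero_le {M : ℝ} (hM : 0 < M) : IntZero M ≤ FinShift M := by
  refine le_of_forall_pos_le_add fun e he => ?_
  obtain ⟨N, t, ht, hk⟩ := core hM he
  exact (csInf_le (bdd_IntZero M) ⟨t, ht, rfl⟩).trans (delta_le hk)

theorem le_FinZero {M : ℝ} (hM : 0 < M) : FinShift M ≤ FinZero M := by
  refine le_csInf ⟨_, 0, _, pow_lacunary hM, rfl⟩ ?_
  rintro d ⟨n, t, ht, rfl⟩
  exact csInf_le (bdd_FinShift M) ⟨n, t, 0, ht, rfl⟩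

theorem IntShift_le_IntZero {M : ℝ} (hM : 0 < M) : IntShift M ≤ IntZero M := by
  obtain ⟨t, ht⟩ := exists_nat_lacunary hM
  refine le_csInf ⟨_, t, ht, rfl⟩ ?_
  rintro d ⟨t, ht, rfl⟩
  exact csInf_le (bdd_IntShift M) ⟨t, 0, ht, rfl⟩

theorem le_IntShift {M : ℝ} (hM : 0 < M) : FinShift M ≤ IntShift M := by
  obtain ⟨t₀, ht₀⟩ := exists_nat_lacunary hM
  refine le_csInf ⟨_, t₀, 0, ht₀, rfl⟩ ?_
  rintro d ⟨t, η, ht, rfl⟩
  refine le_of_forall_pos_le_add fun e he => ?_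
  obtain ⟨N, hN⟩ := Pool.Agent.W_0d5018_h9.compact_int (t := t) (η := η)
    (δ := delta (fun j => t j) η + e) (by
      intro α
      have h1 : (⨅ j : ℕ, nearest (α * t j - η j)) ≤ delta (fun j => t j) η :=
        le_ciSup (bddAbove ℕ 0 (fun j => t j) η) α
      obtain ⟨j, hj⟩ := exists_lt_of_ciInf_lt
        (show (⨅ j : ℕ, nearest (α * t j - η j)) < delta (fun j => t j) η + e by linarith)
      exact ⟨j, hj⟩)
  exact (csInf_le (bdd_FinShift M) ⟨N, _, η, ht, rfl⟩).trans (deltaFin_le hN)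

theorem F_lower : ∃ c : ℝ, 0 < c ∧ ∀ M : ℝ, 2 ≤ M →
    c / (M * (Real.log M) ^ ((2 : ℝ) / 3)) ≤ F M := by
  obtain ⟨c, hc, h⟩ := Pool.Agent.W_0d5018_h9.two_thirds
  refine ⟨c, hc, fun M hM => ?_⟩
  refine le_csInf ⟨_, _, pow_lacunary (by linarith), rfl⟩ ?_
  rintro d ⟨t, ht, rfl⟩
  obtain ⟨α, hα⟩ := h M hM t ht
  have h1 : c / (M * (Real.log M) ^ ((2 : ℝ) / 3)) ≤
      ⨅ j : ℕ, nearest (α * t j - (0 : ℕ → ℝ) j) := by
    refine le_ciInf fun j => ?_
    have := hα j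
    rw [Pi.zero_apply, sub_zero]
    exact this
  exact h1.trans (le_ciSup (bddAbove ℕ 0 t 0) α)

/-- For every `M`, finite `M`-lacunary sequences with shifts, the same without shifts, infinite
`M`-lacunary sequences of integers with shifts and the same without shifts all have the same
constant, and it is at least the constant `F M` of the problem; consequently the shifted problem
has the lower bound `c / (M (log M) ^ (2 / 3))`. -/
theorem result :
    (∀ M : ℝ, 0 < M → F M ≤ FinShift M ∧ FinShift M = FinZero M ∧ FinShift M = IntZero M ∧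
      FinShift M = IntShift M) ∧
    ∃ c : ℝ, 0 < c ∧ ∀ M : ℝ, 2 ≤ M → c / (M * (Real.log M) ^ ((2 : ℝ) / 3)) ≤ FinShift M := by
  refine ⟨fun M hM => ⟨F_le hM, le_antisymm (le_FinZero hM) (FinZero_le hM), ?_, ?_⟩, ?_⟩
  · exact le_antisymm ((le_IntShift hM).trans (IntShift_le_IntZero hM)) (IntZero_le hM)
  · exact le_antisymm (le_IntShift hM) ((IntShift_le_IntZero hM).trans (IntZero_le hM))
  · obtain ⟨c, hc, h⟩ := F_lower
    exact ⟨c, hc, fun M hM => (h M hM).trans (F_le (by linarith))⟩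

end Pool.Agent.Results.MP_0d5018_nt.InhomogeneousEqual
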