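import Pool.Agent.W_MP_0d5018_nt.Main

/-!
# A lower bound for the homogeneous lacunary avoidance problem
-/

namespace Pool.Agent.Results.MP_0d5018_nt.LacunaryTwoThirds

/-- The distance from `x` to the nearest integer. -/
noncomputable def nearest (x : ℝ) : ℝ := |x - round x|

/-- `t` is an `M`-lacunary sequence of positive reals. -/
def IsLacunary (M : ℝ) (t : ℕ → ℝ) : Prop :=
  (∀ j, 0 < t j) ∧ ∀ j, 1 + 1 / M ≤ t (j + 1) / t j

/-- The supremum over real `α` of the infimum over `j` of the distance from `α t_j` to the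
nearest integer. -/
noncomputable def delta (t : ℕ → ℝ) : ℝ := ⨆ α : ℝ, ⨅ j : ℕ, nearest (α * t j)

/-- The infimum of `delta t` over the `M`-lacunary sequences `t`. -/
noncomputable def F (M : ℝ) : ℝ := sInf (delta '' {t | IsLacunary M t})

theorem nearest_nonneg (x : ℝ) : 0 ≤ nearest x := abs_nonneg _

theorem le_delta {t : ℕ → ℝ} {c α : ℝ} (h : ∀ j, ∀ z : ℤ, c ≤ |α * t j - z|) : c ≤ delta t := by
  have h1 : c ≤ ⨅ j : ℕ, nearest (α * t j) := le_ciInf fun j => h j _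
  have hb : BddAbove (Set.range fun α : ℝ => ⨅ j : ℕ, nearest (α * t j)) := by
    refine ⟨1 / 2, ?_⟩
    rintro x ⟨β, rfl⟩
    refine (ciInf_le ⟨0, ?_⟩ 0).trans (abs_sub_round _)
    rintro y ⟨j, rfl⟩
    exact nearest_nonneg _
  exact h1.trans (le_ciSup hb α)

theorem result : ∃ c : ℝ, 0 < c ∧ ∀ M : ℝ, 2 ≤ M →
    c / (M * (Real.log M) ^ ((2 : ℝ) / 3)) ≤ F M := by
  obtain ⟨A, hA⟩ : ∃ A : ℝ, A = 2 ^ 4096 := ⟨_, rfl⟩
  have hA0 : 0 < A := by rw [hA]; positivity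
  refine ⟨1 / (A * 2 ^ 20 * 16388), by positivity, fun M hM => ?_⟩
  have hM0 : 0 < M := by linarith
  have hlog2 : (1 : ℝ) / 2 ≤ Real.log 2 := by linarith [Real.log_two_gt_d9]
  have hx0 : 0 < Real.log M := Real.log_pos (by linarith)
  have hx2 : Real.log 2 ≤ Real.log M := Real.log_le_log (by norm_num) hM
  set x := Real.log M with hx
  set l := ⌈Real.logb 2 M⌉₊ with hl
  have hlogb : 1 ≤ Real.logb 2 M := by
    rw [Real.logb, one_le_div (by linarith)]; exact hx2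
  have hl1 : Real.logb 2 M ≤ l := Nat.le_ceil _
  have hl2 : (l : ℝ) < Real.logb 2 M + 1 := Nat.ceil_lt_add_one (by linarith)
  have hle1 : 1 ≤ l := by
    have : (1 : ℝ) ≤ l := hlogb.trans hl1
    exact_mod_cast this
  have hMl : M ≤ 2 ^ l := by
    have h1 := Real.rpow_le_rpow_of_exponent_le (show (1 : ℝ) ≤ 2 by norm_num) hl1
    rw [Real.rpow_logb (by norm_num) (by norm_num) hM0, Real.rpow_natCast] at h1
    exact h1
  have hlM : (2 : ℝ) ^ l ≤ 2 * M := by
    have h1 := Real.rpow_le_rpow_of_exponent_le (show (1 : ℝ) ≤ 2 by norm_num) hl2.le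
    rw [Real.rpow_natCast, Real.rpow_add (by norm_num), Real.rpow_one,
      Real.rpow_logb (by norm_num) (by norm_num) hM0] at h1
    linarith
  have hlx : (l : ℝ) ≤ 4 * x := by
    have h1 : Real.logb 2 M ≤ 2 * x := by
      rw [Real.logb, div_le_iff₀ (by linarith)]
      nlinarith
    linarith
  set lam := l + 4096 with hlam
  set κ := Nat.log 8 lam with hκ
  have h1 : 8 ^ κ ≤ lam := Nat.pow_log_le_self 8 (by omega)
  have h2 : lam < 8 ^ (κ + 1) := Nat.lt_pow_succ_log_self (by norm_num) lam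
  have h3 : 4 ≤ κ := by
    apply Nat.le_log_of_pow_le (by norm_num)
    omega
  have hlamx : (lam : ℝ) ≤ 16388 * x := by
    have : lam ≤ 4097 * l := by omega
    have : (lam : ℝ) ≤ 4097 * l := by exact_mod_cast this
    linarith
  have h4 : (4 : ℝ) ^ κ ≤ 16388 * x ^ ((2 : ℝ) / 3) := by
    refine le_of_pow_le_pow_left₀ (n := 3) (by norm_num) (by positivity) ?_
    have e1 : (x ^ ((2 : ℝ) / 3)) ^ 3 = x ^ 2 := by
      rw [← Real.rpow_natCast, ← Real.rpow_mul hx0.le]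
      norm_num
    have e2 : ((4 : ℝ) ^ κ) ^ 3 = ((8 : ℝ) ^ κ) ^ 2 := by
      rw [← pow_mul, ← pow_mul, mul_comm κ 3, mul_comm κ 2, pow_mul, pow_mul]
      norm_num
    rw [mul_pow, e1, e2]
    have e3 : (8 : ℝ) ^ κ ≤ 16388 * x := by
      have : ((8 ^ κ : ℕ) : ℝ) ≤ lam := by exact_mod_cast h1
      push_cast at this
      linarith
    calc ((8 : ℝ) ^ κ) ^ 2 ≤ (16388 * x) ^ 2 := pow_le_pow_left₀ (by positivity) e3 2
      _ = 16388 ^ 2 * x ^ 2 := by ring
      _ ≤ 16388 ^ 3 * x ^ 2 := by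
          apply mul_le_mul_of_nonneg_right _ (by positivity)
          norm_num
  have hy0 : 0 < x ^ ((2 : ℝ) / 3) := Real.rpow_pos_of_pos hx0 _
  rw [F]
  refine le_csInf ?_ ?_
  · refine ⟨_, ⟨fun j => (1 + 1 / M) ^ j, ⟨fun j => by positivity, fun j => ?_⟩, rfl⟩⟩
    have h5 : (0 : ℝ) < (1 + 1 / M) ^ j := by positivity
    change 1 + 1 / M ≤ (1 + 1 / M) ^ (j + 1) / (1 + 1 / M) ^ j
    rw [pow_succ, mul_div_cancel_left₀ _ h5.ne']
  · rintro d ⟨t, ⟨ht0, ht⟩, rfl⟩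
    have ht' : ∀ j, (1 + 1 / (2 : ℝ) ^ lam) * t j ≤ t (j + 1) := by
      intro j
      have h5 := ht j
      rw [le_div_iff₀ (ht0 j)] at h5
      refine le_trans (mul_le_mul_of_nonneg_right ?_ (ht0 j).le) h5
      have h6 : M ≤ 2 ^ lam := hMl.trans (pow_le_pow_right₀ (by norm_num) (by omega))
      have h7 := one_div_le_one_div_of_le hM0 h6
      linarith
    obtain ⟨α, hα⟩ := Pool.Agent.W_MP_0d5018_nt.exists_alpha lam κ h1 h2 h3 t ht0 ht'
    refine le_trans ?_ (le_delta hα)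
    have e1 : (2 : ℝ) ^ (lam + 2 * κ + 20) = A * 2 ^ 20 * (2 ^ l * 4 ^ κ) := by
      rw [hlam, pow_add, pow_add, pow_add, pow_mul, ← hA, show (2 : ℝ) ^ 2 = 4 by norm_num]
      ring
    rw [e1, div_div, div_le_div_iff₀ (by positivity) (by positivity), one_mul]
    have e2 : (2 : ℝ) ^ l * 4 ^ κ ≤ (2 * M) * (16388 * x ^ ((2 : ℝ) / 3)) :=
      mul_le_mul hlM h4 (by positivity) (by positivity)
    calc A * 2 ^ 20 * (2 ^ l * 4 ^ κ)
        ≤ A * 2 ^ 20 * ((2 * M) * (16388 * x ^ ((2 : ℝ) / 3))) :=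
          mul_le_mul_of_nonneg_left e2 (by positivity)
      _ = 2 * (A * 2 ^ 20 * 16388 * (M * x ^ ((2 : ℝ) / 3))) := by ring

end Pool.Agent.Results.MP_0d5018_nt.LacunaryTwoThirds
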