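import Pool.Agent.W_0d5018_h9.OctEnum
import Pool.Agent.W_0d5018_h9.LowerOct
import Pool.Agent.W_0d5018_h9.TwoThirds

/-!
# The order of the avoidance constant when only the number of terms per octave is restricted
-/

namespace Pool.Agent.Results.MP_0d5018_nt.OctaveOrder

/-- The distance from `x` to the nearest integer. -/
noncomputable def nearest (x : ℝ) : ℝ := |x - round x|

/-- `t` is an `M`-lacunary sequence of positive reals. -/
def IsLacunary (M : ℝ) (t : ℕ → ℝ) : Prop :=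
  (∀ j, 0 < t j) ∧ ∀ j, 1 + 1 / M ≤ t (j + 1) / t j

/-- `t` is a strictly increasing sequence of positive reals that at least doubles in `M` steps,
that is, with at most `M` terms in every interval `[X, 2 X)`. -/
def IsOctave (M : ℕ) (t : ℕ → ℝ) : Prop :=
  (∀ j, 0 < t j) ∧ StrictMono t ∧ ∀ j, 2 * t j ≤ t (j + M)

/-- The supremum over real `α` of the infimum over `j` of the distance from `α t_j` to the
nearest integer. -/
noncomputable def delta (t : ℕ → ℝ) : ℝ := ⨆ α : ℝ, ⨅ j : ℕ, nearest (α * t j)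

/-- The constant of the problem. -/
noncomputable def F (M : ℝ) : ℝ := sInf (delta '' {t | IsLacunary M t})

/-- The same constant for sequences with at most `M` terms per octave. -/
noncomputable def G (M : ℕ) : ℝ := sInf (delta '' {t | IsOctave M t})

theorem nearest_nonneg (x : ℝ) : 0 ≤ nearest x := abs_nonneg _

theorem bddBelow (t : ℕ → ℝ) (α : ℝ) : BddBelow (Set.range fun j : ℕ => nearest (α * t j)) :=
  ⟨0, by rintro y ⟨j, rfl⟩; exact nearest_nonneg _⟩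

theorem bddAbove (t : ℕ → ℝ) : BddAbove (Set.range fun α : ℝ => ⨅ j : ℕ, nearest (α * t j)) := by
  refine ⟨1 / 2, ?_⟩
  rintro x ⟨β, rfl⟩
  exact (ciInf_le (bddBelow t β) 0).trans (abs_sub_round _)

theorem le_delta {t : ℕ → ℝ} {c α : ℝ} (h : ∀ j, c ≤ nearest (α * t j)) : c ≤ delta t :=
  (le_ciInf h).trans (le_ciSup (bddAbove t) α)

theorem delta_nonneg (t : ℕ → ℝ) : 0 ≤ delta t := le_delta (α := 0) fun _ => nearest_nonneg _

theorem bdd_G (M : ℕ) : BddBelow (delta '' {t | IsOctave M t}) :=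
  ⟨0, by rintro d ⟨t, -, rfl⟩; exact delta_nonneg _⟩

theorem octave_two_pow {M : ℕ} (hM : 1 ≤ M) : IsOctave M fun j => 2 ^ j := by
  refine ⟨fun j => by positivity, pow_right_strictMono₀ (by norm_num), fun j => ?_⟩
  have h1 : (2 : ℝ) * 2 ^ j = 2 ^ (j + 1) := by ring
  change 2 * (2 : ℝ) ^ j ≤ 2 ^ (j + M)
  rw [h1]
  exact pow_le_pow_right₀ (by norm_num) (by omega)

theorem G_le {K M : ℕ} (hK : 1 ≤ K) (hM : 2 ^ K ≤ M) : G M ≤ 1 / (2 * K * 2 ^ K) := by
  refine le_of_forall_pos_le_add fun e he => ?_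
  obtain ⟨t, h1, h2, h3, h4⟩ := Pool.Agent.W_0d5018_h9.octave_seq hK he
  have hoct : IsOctave M fun j => (t j : ℝ) := by
    refine ⟨fun j => Nat.cast_pos.2 (h1 j), fun i j hij => Nat.cast_lt.2 (h2 hij), fun j => ?_⟩
    have h5 := h3 j
    have h6 : t (j + 2 ^ K) ≤ t (j + M) := h2.monotone (by omega)
    have h7 : 2 * t j ≤ t (j + M) := h5.trans h6
    change 2 * ((t j : ℕ) : ℝ) ≤ ((t (j + M) : ℕ) : ℝ)
    exact_mod_cast h7
  refine (csInf_le (bdd_G M) ⟨_, hoct, rfl⟩).trans ?_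
  refine ciSup_le fun α => ?_
  obtain ⟨j, hj⟩ := h4 α
  exact (ciInf_le (bddBelow _ α) j).trans hj

theorem one_le_logb {M : ℕ} (hM : 2 ≤ M) : 1 ≤ Real.logb 2 M := by
  have hM' : (2 : ℝ) ≤ M := by exact_mod_cast hM
  rw [Real.le_logb_iff_rpow_le (by norm_num) (by linarith)]
  simpa using hM'

theorem G_upper {M : ℕ} (hM : 2 ≤ M) : G M ≤ 2 / (M * Real.logb 2 M) := by
  have hK : 1 ≤ Nat.log 2 M := Nat.log_pos (by norm_num) hM
  refine (G_le hK (Nat.pow_log_le_self 2 (by omega))).trans ?_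
  obtain ⟨K, hKdef⟩ : ∃ K, K = Nat.log 2 M := ⟨_, rfl⟩
  rw [← hKdef] at hK ⊢
  have h1 : M < 2 ^ (K + 1) := by rw [hKdef]; exact Nat.lt_pow_succ_log_self (by norm_num) M
  have h1r : (M : ℝ) ≤ 2 * 2 ^ K := by
    have : (M : ℝ) < 2 ^ (K + 1) := by exact_mod_cast h1
    rw [pow_succ] at this
    linarith
  have hM0 : (0 : ℝ) < M := by exact_mod_cast (show 0 < M by omega)
  have h2 : Real.logb 2 M ≤ K + 1 := by
    rw [Real.logb_le_iff_le_rpow (by norm_num) hM0]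
    have h3 : (2 : ℝ) ^ ((K : ℝ) + 1) = 2 ^ (K + 1) := by
      rw [← Real.rpow_natCast]; push_cast; rfl
    rw [h3]
    exact_mod_cast h1.le
  have hKr : (1 : ℝ) ≤ K := by exact_mod_cast hK
  have h3 := one_le_logb hM
  rw [div_le_div_iff₀ (by positivity) (by positivity)]
  calc 1 * (M * Real.logb 2 M) ≤ (2 * 2 ^ K) * (K + 1) := by
        rw [one_mul]
        exact mul_le_mul h1r h2 (by linarith) (by positivity)
    _ ≤ (2 * 2 ^ K) * (2 * K) := mul_le_mul_of_nonneg_left (by linarith) (by positivity)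
    _ = 2 * (2 * K * 2 ^ K) := by ring

theorem G_lower {M : ℕ} (hM : 2 ≤ M) : 1 / 2 ^ 20 / (M * Real.log M) ≤ G M := by
  obtain ⟨lam, hlam⟩ : ∃ lam, lam = Nat.clog 2 M := ⟨_, rfl⟩
  obtain ⟨κ, hκ⟩ : ∃ κ, κ = Nat.clog 2 lam := ⟨_, rfl⟩
  have hM0 : (0 : ℝ) < M := by exact_mod_cast (show 0 < M by omega)
  have hl1 : M ≤ 2 ^ lam := by rw [hlam]; exact Nat.le_pow_clog (by norm_num) M
  have hl2 : 2 ^ (lam - 1) < M := by
    rw [hlam]; exact Nat.pow_pred_clog_lt_self (by norm_num) (by omega)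
  have hlam1 : 1 ≤ lam := by
    rcases Nat.eq_zero_or_pos lam with h | h
    · rw [h] at hl1; omega
    · exact h
  have hk1 : lam ≤ 2 ^ κ := by rw [hκ]; exact Nat.le_pow_clog (by norm_num) lam
  have hk2 : 2 ^ κ ≤ 2 * lam := by
    rcases Nat.lt_or_ge 1 lam with h | h
    · have h1 : 2 ^ (κ - 1) < lam := by
        rw [hκ]; exact Nat.pow_pred_clog_lt_self (by norm_num) h
      rcases Nat.eq_zero_or_pos κ with h0 | h0
      · rw [h0]; simp; omega
      · have : 2 ^ κ = 2 * 2 ^ (κ - 1) := by rw [← pow_succ']; congr 1; omega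
        omega
    · have : lam = 1 := by omega
      rw [hκ, this]; simp
  have hl3 : (lam : ℝ) ≤ 4 * Real.log M := by
    have h1 : ((lam : ℝ) - 1) ≤ Real.logb 2 M := by
      rw [Real.le_logb_iff_rpow_le (by norm_num) hM0]
      have h3 : (2 : ℝ) ^ ((lam : ℝ) - 1) = 2 ^ (lam - 1) := by
        rw [← Real.rpow_natCast, Nat.cast_sub hlam1, Nat.cast_one]
      rw [h3]
      exact_mod_cast hl2.le
    have h2 := one_le_logb hM
    have h3 : Real.logb 2 M ≤ 2 * Real.log M := by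
      have h4 : (1 : ℝ) / 2 ≤ Real.log 2 := by linarith [Real.log_two_gt_d9]
      have h5 : 0 ≤ Real.log M := Real.log_nonneg (by exact_mod_cast (show 1 ≤ M by omega))
      rw [Real.logb, div_le_iff₀ (by linarith)]
      nlinarith
    linarith
  have hlog : 0 < Real.log M := Real.log_pos (by exact_mod_cast (show 1 < M by omega))
  refine le_csInf ⟨_, _, octave_two_pow (by omega), rfl⟩ ?_
  rintro d ⟨t, ⟨ht0, hmono, ht⟩, rfl⟩
  obtain ⟨α, hα⟩ := Pool.Agent.W_0d5018_h9.exists_alpha_oct lam κ hk1 t ht0 hmono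
    (fun j => (ht j).trans (hmono.monotone (by omega)))
  refine le_delta (α := α) fun j => le_trans ?_ (hα j (round (α * t j)))
  have e1 : (2 : ℝ) ^ (lam + κ + 17) = 2 * (2 ^ (lam - 1)) * 2 ^ κ * 2 ^ 17 := by
    rw [← pow_succ', ← pow_add, ← pow_add]; congr 1; omega
  rw [e1, div_div, div_le_div_iff₀ (by positivity) (by positivity), one_mul]
  have h1 : (2 : ℝ) ^ (lam - 1) ≤ M := by exact_mod_cast hl2.le
  have h2 : (2 : ℝ) ^ κ ≤ 2 * lam := by exact_mod_cast hk2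
  have h3 : (2 : ℝ) ^ κ ≤ 8 * Real.log M := by linarith
  calc 2 * (2 : ℝ) ^ (lam - 1) * 2 ^ κ * 2 ^ 17 ≤ 2 * M * (8 * Real.log M) * 2 ^ 17 := by
        refine mul_le_mul_of_nonneg_right ?_ (by positivity)
        exact mul_le_mul (by linarith) h3 (by positivity) (by positivity)
    _ = 2 * (2 ^ 20 * (M * Real.log M)) := by ring

theorem F_lower : ∃ c : ℝ, 0 < c ∧ ∀ M : ℝ, 2 ≤ M →
    c / (M * (Real.log M) ^ ((2 : ℝ) / 3)) ≤ F M := by
  obtain ⟨c, hc, h⟩ := Pool.Agent.W_0d5018_h9.two_thirds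
  refine ⟨c, hc, fun M hM => ?_⟩
  refine le_csInf ⟨_, ⟨fun j => (1 + 1 / M) ^ j, ⟨fun j => by positivity, fun j => ?_⟩, rfl⟩⟩ ?_
  · have h5 : (0 : ℝ) < (1 + 1 / M) ^ j := by positivity
    change 1 + 1 / M ≤ (1 + 1 / M) ^ (j + 1) / (1 + 1 / M) ^ j
    rw [pow_succ, mul_div_cancel_left₀ _ h5.ne']
  · rintro d ⟨t, ht, rfl⟩
    obtain ⟨α, hα⟩ := h M hM t ht
    exact le_delta (α := α) hα

/-- With at most `M` terms per octave the avoidance constant has exact order `1 / (M log M)`,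
while `F M` is larger by a factor at least `c (log M) ^ (1 / 3)`. -/
theorem result :
    (∃ c : ℝ, 0 < c ∧ ∀ M : ℕ, 2 ≤ M → c / (M * Real.log M) ≤ G M) ∧
    (∀ M : ℕ, 2 ≤ M → G M ≤ 2 / (M * Real.logb 2 M)) ∧
    (∀ K : ℕ, 1 ≤ K → G (2 ^ K) ≤ 1 / (2 * K * 2 ^ K)) ∧
    ∃ c : ℝ, 0 < c ∧ ∀ M : ℕ, 2 ≤ M → c * (Real.log M) ^ ((1 : ℝ) / 3) * G M ≤ F M := by
  refine ⟨⟨1 / 2 ^ 20, by positivity, fun M hM => G_lower hM⟩, fun M hM => G_upper hM,
    fun K hK => G_le hK le_rfl, ?_⟩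
  obtain ⟨c, hc, h⟩ := F_lower
  refine ⟨c / 2, by positivity, fun M hM => ?_⟩
  have hM2 : (2 : ℝ) ≤ M := by exact_mod_cast hM
  refine le_trans ?_ (h M hM2)
  obtain ⟨x, hx⟩ : ∃ x, x = Real.log M := ⟨_, rfl⟩
  have hx0 : 0 < x := by rw [hx]; exact Real.log_pos (by linarith)
  have h1 : G M ≤ 2 / (M * x) := by
    refine (G_upper hM).trans ?_
    have h2 : x ≤ Real.logb 2 M := by
      rw [hx, Real.logb, le_div_iff₀ (Real.log_pos (by norm_num))]
      have h3 : Real.log 2 ≤ 1 := by linarith [Real.log_two_lt_d9]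
      have h4 : 0 ≤ Real.log M := by rw [← hx]; exact hx0.le
      nlinarith
    exact div_le_div_of_nonneg_left (by norm_num) (by positivity)
      (mul_le_mul_of_nonneg_left h2 (by positivity))
  rw [← hx]
  have h3 : x ^ ((1 : ℝ) / 3) * x ^ ((2 : ℝ) / 3) = x := by
    rw [← Real.rpow_add hx0]; norm_num
  have hp : 0 < x ^ ((2 : ℝ) / 3) := Real.rpow_pos_of_pos hx0 _
  have hq : 0 < x ^ ((1 : ℝ) / 3) := Real.rpow_pos_of_pos hx0 _
  calc c / 2 * x ^ ((1 : ℝ) / 3) * G M ≤ c / 2 * x ^ ((1 : ℝ) / 3) * (2 / (M * x)) :=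
        mul_le_mul_of_nonneg_left h1 (by positivity)
    _ = c / (M * x ^ ((2 : ℝ) / 3)) := by
        have h4 : (M : ℝ) ≠ 0 := by positivity
        rw [eq_div_iff (by positivity)]
        have h5 : c / 2 * x ^ ((1 : ℝ) / 3) * (2 / (M * x)) * (M * x ^ ((2 : ℝ) / 3))
            = c * ((x ^ ((1 : ℝ) / 3) * x ^ ((2 : ℝ) / 3)) / x) := by
          field_simp
        rw [h5, h3, div_self hx0.ne', mul_one]

end Pool.Agent.Results.MP_0d5018_nt.OctaveOrder
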